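import Mathlib

/-!
# Planar clouds are not determined by their pointwise distance distribution

Two ten-point clouds in the plane: a rectangle inscribed in a circle together with an
equiangular hexagon inscribed in a concentric circle of twice the radius; in the second cloud
the hexagon is turned by thirty degrees.
-/

set_option autoImplicit false

namespace Pool.Agent.Results.MP_8766ea_co.TenPointClouds

/-- The Euclidean plane. -/
abbrev Plane : Type := EuclideanSpace ℝ (Fin 2)

open Classical in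
/-- The row of `p` in the cloud `C`: the distances from `p` to the other points of `C`, listed in
non-decreasing order. -/
noncomputable def row (C : Finset Plane) (p : Plane) : List ℝ :=
  ((C.erase p).val.map fun q => dist p q).sort (· ≤ ·)

/-- The pointwise distance distribution of the cloud `C`: the multiset of the rows of its
points. -/
noncomputable def pdd (C : Finset Plane) : Multiset (List ℝ) := C.val.map (row C)

/-- Coordinates `(a, b, c, d)` stand for the point `(a + b√3, c + d√3)`. -/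
abbrev Q : Type := ℤ × ℤ × ℤ × ℤ

/-- The point with the given coordinates. -/
noncomputable def pt (u : Q) : Plane :=
  !₂[(u.1 : ℝ) + u.2.1 * √3, (u.2.2.1 : ℝ) + u.2.2.2 * √3]

/-- The squared distance of two points, as `a + b√3`. -/
def code (u v : Q) : ℤ × ℤ :=
  ((u.1 - v.1) ^ 2 + 3 * (u.2.1 - v.2.1) ^ 2 + (u.2.2.1 - v.2.2.1) ^ 2
      + 3 * (u.2.2.2 - v.2.2.2) ^ 2,
    2 * ((u.1 - v.1) * (u.2.1 - v.2.1) + (u.2.2.1 - v.2.2.1) * (u.2.2.2 - v.2.2.2)))

/-- The distance with the given code. -/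
noncomputable def len (c : ℤ × ℤ) : ℝ := √((c.1 : ℝ) + c.2 * √3)

theorem sqrt3_sq : (√3 : ℝ) * √3 = 3 := Real.mul_self_sqrt (by norm_num)

theorem irr {a b c d : ℤ} (h : (a : ℝ) + b * √3 = c + d * √3) : a = c ∧ b = d := by
  have hirr : Irrational (√3 : ℝ) := by
    have := Nat.Prime.irrational_sqrt (show Nat.Prime 3 by norm_num)
    simpa using this
  by_cases hbd : b = d
  · subst hbd
    refine ⟨?_, rfl⟩
    have : (a : ℝ) = c := by linarith
    exact_mod_cast this
  · exfalso
    have hne : ((b : ℝ) - d) ≠ 0 := by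
      intro h0
      apply hbd
      have : (b : ℝ) = d := by linarith
      exact_mod_cast this
    apply hirr
    refine ⟨((c : ℚ) - a) / ((b : ℚ) - d), ?_⟩
    push_cast
    rw [div_eq_iff hne]
    linarith

theorem dist_pt (u v : Q) : dist (pt u) (pt v) = len (code u v) := by
  obtain ⟨a, b, c, d⟩ := u
  obtain ⟨a', b', c', d'⟩ := v
  rw [EuclideanSpace.dist_eq]
  unfold len
  congr 1
  simp only [pt, code, Fin.sum_univ_two, Real.dist_eq, sq_abs, PiLp.toLp_apply,
    Matrix.cons_val_zero, Matrix.cons_val_one, Matrix.cons_val_fin_one]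
  push_cast
  have h3 : (√3 : ℝ) ^ 2 = 3 := by rw [sq]; exact sqrt3_sq
  ring_nf
  rw [h3]
  ring

theorem pt_injective : Function.Injective pt := by
  rintro ⟨a, b, c, d⟩ ⟨a', b', c', d'⟩ h
  have h0 : (a : ℝ) + b * √3 = a' + b' * √3 := by
    have := congrFun (congrArg (fun p : Plane => (p : Fin 2 → ℝ)) h) 0
    simpa [pt] using this
  have h1 : (c : ℝ) + d * √3 = c' + d' * √3 := by
    have := congrFun (congrArg (fun p : Plane => (p : Fin 2 → ℝ)) h) 1
    simpa [pt] using this
  obtain ⟨rfl, rfl⟩ := irr h0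
  obtain ⟨rfl, rfl⟩ := irr h1
  rfl

/-- The rectangle. -/
def rect : List Q := [(2, 0, 0, 0), (0, 1, 1, 0), (-2, 0, 0, 0), (0, -1, -1, 0)]

/-- The hexagon with vertices in directions 0°, 30°, 120°, 150°, 240°, 270°. -/
def hex₁ : List Q :=
  [(4, 0, 0, 0), (0, 2, 2, 0), (-2, 0, 0, 2), (0, -2, 2, 0), (-2, 0, 0, -2), (0, 0, -4, 0)]

/-- The hexagon with vertices in directions 30°, 60°, 150°, 180°, 270°, 300°. -/
def hex₂ : List Q :=
  [(0, 2, 2, 0), (2, 0, 0, 2), (0, -2, 2, 0), (-4, 0, 0, 0), (0, 0, -4, 0), (2, 0, 0, -2)]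

/-- Coordinates of the points of the first cloud. -/
def L₁ : Finset Q := (rect ++ hex₁).toFinset

/-- Coordinates of the points of the second cloud. -/
def L₂ : Finset Q := (rect ++ hex₂).toFinset

/-- The cloud with the given coordinates. -/
noncomputable def cloud (L : Finset Q) : Finset Plane := L.map ⟨pt, pt_injective⟩

/-- The rows of the cloud, in codes. -/
def codes (L : Finset Q) : Multiset (Multiset (ℤ × ℤ)) :=
  L.val.map fun u => (L.erase u).val.map fun v => code u v

theorem pdd_cloud (L : Finset Q) :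
    pdd (cloud L) = (codes L).map fun R => (R.map len).sort (· ≤ ·) := by
  classical
  unfold pdd codes
  rw [Multiset.map_map]
  unfold cloud
  rw [Finset.map_val, Multiset.map_map]
  refine Multiset.map_congr rfl fun u _ => ?_
  simp only [Function.comp_apply, Function.Embedding.coeFn_mk]
  unfold row
  congr 1
  have : ((L.map ⟨pt, pt_injective⟩).erase (pt u)) = (L.erase u).map ⟨pt, pt_injective⟩ := by
    ext p
    simp only [Finset.mem_erase, Finset.mem_map, Function.Embedding.coeFn_mk]
    constructor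
    · rintro ⟨hp, v, hv, rfl⟩
      exact ⟨v, ⟨fun h => hp (by rw [h]), hv⟩, rfl⟩
    · rintro ⟨v, ⟨hvu, hv⟩, rfl⟩
      exact ⟨fun h => hvu (pt_injective h), v, hv, rfl⟩
  rw [Multiset.map_map]
  convert congrArg (fun F : Finset Plane => F.val.map fun q => dist (pt u) q) this using 1
  · rw [Finset.map_val, Multiset.map_map]
    refine Multiset.map_congr rfl fun v _ => ?_
    simp [dist_pt]

theorem codes_eq : codes L₁ = codes L₂ := by decide +kernel

theorem len_nonneg_code (u v : Q) : 0 ≤ ((code u v).1 : ℝ) + (code u v).2 * √3 := by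
  obtain ⟨a, b, c, d⟩ := u
  obtain ⟨a', b', c', d'⟩ := v
  have h3 : (√3 : ℝ) ^ 2 = 3 := by rw [sq]; exact sqrt3_sq
  have : ((code (a, b, c, d) (a', b', c', d')).1 : ℝ)
      + (code (a, b, c, d) (a', b', c', d')).2 * √3
      = (((a : ℝ) - a') + (b - b') * √3) ^ 2 + (((c : ℝ) - c') + (d - d') * √3) ^ 2 := by
    simp only [code]
    push_cast
    ring_nf
    rw [h3]
    ring
  rw [this]
  positivity

theorem code_eq_of_dist_eq {u v u' v' : Q} (h : dist (pt u) (pt v) = dist (pt u') (pt v')) :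
    code u v = code u' v' := by
  rw [dist_pt, dist_pt] at h
  unfold len at h
  rw [Real.sqrt_inj (len_nonneg_code u v) (len_nonneg_code u' v')] at h
  obtain ⟨h1, h2⟩ := irr h
  exact Prod.ext h1 h2

/-- A path of three steps with the given distances. -/
theorem path₁ : (code (4, 0, 0, 0) (2, 0, 0, 0) = (4, 0)) ∧
    (code (2, 0, 0, 0) (0, 1, 1, 0) = (8, -4)) ∧ (code (0, 1, 1, 0) (0, 2, 2, 0) = (4, 0)) := by
  decide

theorem no_path₂ : ∀ u ∈ L₂, ∀ v ∈ L₂, code u v = (4, 0) → ∀ w ∈ L₂, code v w = (8, -4) →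
    ∀ z ∈ L₂, code w z ≠ (4, 0) := by
  decide +kernel

theorem not_isometric (f : Plane → Plane) (hiso : Isometry f)
    (hf : f '' (cloud L₁ : Set Plane) = (cloud L₂ : Set Plane)) : False := by
  have key : ∀ u ∈ L₁, ∃ u' ∈ L₂, f (pt u) = pt u' := by
    intro u hu
    have h1 : pt u ∈ (cloud L₁ : Set Plane) := by
      simp only [cloud, Finset.coe_map, Set.mem_image, Finset.mem_coe,
        Function.Embedding.coeFn_mk]
      exact ⟨u, hu, rfl⟩
    have h2 : f (pt u) ∈ (cloud L₂ : Set Plane) := hf ▸ Set.mem_image_of_mem f h1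
    simp only [cloud, Finset.coe_map, Set.mem_image, Finset.mem_coe,
      Function.Embedding.coeFn_mk] at h2
    obtain ⟨u', hu', h⟩ := h2
    exact ⟨u', hu', h.symm⟩
  have hc : ∀ u v u' v' : Q, f (pt u) = pt u' → f (pt v) = pt v' →
      code u' v' = code u v := by
    intro u v u' v' hu hv
    apply code_eq_of_dist_eq
    rw [← hu, ← hv]
    exact hiso.dist_eq _ _
  obtain ⟨p1, p2, p3⟩ := path₁
  obtain ⟨u, hu, hu'⟩ := key (4, 0, 0, 0) (by decide)
  obtain ⟨v, hv, hv'⟩ := key (2, 0, 0, 0) (by decide)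
  obtain ⟨w, hw, hw'⟩ := key (0, 1, 1, 0) (by decide)
  obtain ⟨z, hz, hz'⟩ := key (0, 2, 2, 0) (by decide)
  refine no_path₂ u hu v hv ?_ w hw ?_ z hz ?_
  · rw [hc _ _ _ _ hu' hv', p1]
  · rw [hc _ _ _ _ hv' hw', p2]
  · rw [hc _ _ _ _ hw' hz', p3]

theorem result : ∃ C C' : Finset Plane, C.card = 10 ∧ C'.card = 10 ∧ pdd C = pdd C' ∧
    ¬ ∃ f : Plane → Plane, Isometry f ∧ f '' (C : Set Plane) = (C' : Set Plane) := by
  refine ⟨cloud L₁, cloud L₂, ?_, ?_, ?_, ?_⟩
  · rw [cloud, Finset.card_map]; decide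
  · rw [cloud, Finset.card_map]; decide
  · rw [pdd_cloud, pdd_cloud, codes_eq]
  · rintro ⟨f, hiso, hf⟩
    exact not_isometric f hiso hf

end Pool.Agent.Results.MP_8766ea_co.TenPointClouds
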